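import Pool.Agent.TH944.Del.Z2M

open Pool.Agent.TH965.Stk Pool.Agent.TH944.Tw

namespace Pool.Agent.Results.MP_100fe7_nt.ArtinTwists

/-- (1) Deligne's conjecture at the critical integer `m` for the twists `M ⊗ ρ` of a motive `M` over
`ℚ` with coefficients in `E` by all Artin motives `ρ` over `ℚ` is equivalent to its special case
of the twists `M ⊗ Ind ψ`, where `ψ` is a linear character of a number field `K` with at least `N`
complex places, `ψ(c) = e` for the complex conjugation `c` at every real place of `K`, and moreover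
`K` is totally complex or the order of `ψ` is a power of two. The period of `M ⊗ Ind ψ` is
`(2 π i)^(m h (r1 + 2 r2)) c^(e ε)(M)^(r1 + r2) c^(- e ε)(M)^r2 δ(Ind ψ)^h`, `ε = (-1)^m`.
(2) Modulo a group `U` of complex numbers closed under square roots (2-power roots of unity,
algebraic numbers) it is equivalent to its special case of `M` itself and of the twists `M ⊗ Ind ψ`,
`ψ` a linear character of a totally complex number field with at least `N` complex places. -/
theorem result {E : Type} [Field E] (T : Twists E) (m : ℤ) (N : ℕ) (e : ℤˣ) :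
    ((∀ σ τ, ∀ f ∈ Virt QQ, T.B m ((-1) ^ m) (dim T.cc 1 f) (dim T.cc (-1) f) σ τ f = 1) ↔
    (∀ σ τ K, IsNF K → N ≤ r2 K → ∀ ψ : LinChar K,
      ψ.HasSign (Units.map (Int.castRingHom ℂ : ℤ →* ℂ) e) →
      (IsTC K ∨ ∃ a : ℕ, ∀ g, ψ.hom g ^ (2 ^ a) = 1) →
      T.B m (e * (-1) ^ m) (r1 K + r2 K) (r2 K) σ τ (ind QQ K ψ.fn) = 1)) ∧
    ∀ U : Subgroup ℂˣ, (∀ x : ℂˣ, x * x ∈ U → x ∈ U) →
      ((∀ σ τ, ∀ f ∈ Virt QQ,
        T.B m ((-1) ^ m) (dim T.cc 1 f) (dim T.cc (-1) f) σ τ f ∈ U) ↔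
      ((∀ σ τ, T.B m ((-1) ^ m) 1 0 σ τ (fun _ => 1) ∈ U) ∧
        ∀ σ τ K, IsNF K → N ≤ r2 K → IsTC K → ∀ ψ : LinChar K,
          T.B m ((-1) ^ m) (r2 K) (r2 K) σ τ (ind QQ K ψ.fn) ∈ U)) :=
  ⟨main1 T m ((-1) ^ m) e N, fun U hU => main2_sharp U hU T m ((-1) ^ m) N⟩

end Pool.Agent.Results.MP_100fe7_nt.ArtinTwists
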