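import Pool.Agent.TH270.MC.Deligne

/-!
# Deligne's conjecture at the central critical integer, in terms of the partial Euler products

Let `M` be a motive over `ℚ` with coefficients in a number field `E`, pure of odd weight `w = 2m - 1`. Then the
central integer `m` is always critical for `M`, and Deligne's conjecture for `L(m, M)` says that there is `e ∈ E`
with `L(m, M, τ) = τ(e) c_τ` for every embedding `τ : E → ℂ`, where `c_τ ≠ 0` are the components of the period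
`(2πi)^{m n^ε} c^ε(M) ∈ (E ⊗ ℂ)^×`.

The partial products `R(n) = ∏_{p ≤ n} P_p(p^{-m})` of `1 / L(m, M)` are elements of `E`. It is shown that, under the
Riemann hypothesis for the functions `L(s, M, τ)`, Deligne's conjecture is a statement on the approximation of
elements of `E ⊗ ℂ = ∏_τ ℂ`, formed with the period and the numbers `R(n) ∈ E`, by the lattice of integers `𝓞 E`:

* (1) if all `L(s, M, τ)` are without zeros for `Re s > m`, then the conjecture for `L(m, M)` holds if and only if for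
  some integer `N ≥ 1` and every `ε > 0` the vector `(N 2^{-ν_τ/2} / (c_τ τ(R(n))))_τ` is `ε`-close to a vector
  `(τ(a))_τ`, `a ∈ 𝓞 E`, for almost all `n` (the exceptional `n` have `∑ 1/n < ∞`);
* (2) the Riemann hypothesis for all `L(s, M, τ)`, the conjecture, and `L(m, M, τ) ≠ 0` for all `τ` hold together if
  and only if the condition of (1) holds and `∑_{n ≤ x} |log |τ(R(n))|| / n = O(log x)` for every `τ`.

The factors `2^{-ν_τ/2}` come from the squares of the Frobenius: `∑_{√n < p ≤ n} Tr(Frob_p²) p^{-2m} → ν_τ log 2`, an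
assumption which follows from the prime number theorem for the symmetric and the exterior square of `M` (`ν = -1`
for elliptic curves and newforms with real coefficients; `ν = 0` for example for newforms whose nebentypus is not
quadratic or trivial).
-/

set_option autoImplicit false

open Filter Topology NumberField Polynomial

namespace Pool.Agent.Results.MP_100fe7_nt.CentralValues

section definitions

variable {E : Type} [Field E] [NumberField E]

/-- The Euler factors `P_p(T) = det(1 - Frob_p T)` of a motive with coefficients in `E`, pure of weight `2m - 1`: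
polynomials over `E` with constant term `1` and bounded degrees such that, for every embedding, the roots have
absolute values `≥ p^{1/2 - m}` (`= p^{-w/2}` at the good primes). -/
structure IsLocalData (m : ℤ) (P : ℕ → E[X]) : Prop where
  const : ∀ p : ℕ, p.Prime → (P p).coeff 0 = 1
  deg : ∃ D : ℕ, ∀ p : ℕ, p.Prime → (P p).natDegree ≤ D
  pure : ∀ p : ℕ, p.Prime → ∀ (τ : E →+* ℂ) (ρ : ℂ), ((P p).map τ).IsRoot ρ →
    (p : ℝ) ^ (1 / 2 - (m : ℝ)) ≤ ‖ρ‖

/-- The component `L(s, M, τ)` of the `L`-function, the product of the `τ P_p(p^{-s})⁻¹`; it is used for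
`Re s > m + 1/2`, where the product converges absolutely. -/
noncomputable def L (P : ℕ → E[X]) (τ : E →+* ℂ) (s : ℂ) : ℂ :=
  ∏' p : Nat.Primes, (((P p).map τ).eval (((p : ℕ) : ℂ) ^ (-s)))⁻¹

/-- `F` continues `L(s, M, τ)` across the central line: for some `η > 0` it is holomorphic for `Re s > m - η` with
`|F(s)| ≤ C (1 + |s|)^κ` there, and it is equal to `L(s, M, τ)` for `Re s > m + 1/2`. -/
def Continues (m : ℤ) (P : ℕ → E[X]) (τ : E →+* ℂ) (F : ℂ → ℂ) : Prop :=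
  (∃ (η C : ℝ) (κ : ℕ), 0 < η ∧ ∀ s : ℂ, (m : ℝ) - η < s.re →
    DifferentiableAt ℂ F s ∧ ‖F s‖ ≤ C * (1 + ‖s‖) ^ κ) ∧
  ∀ s : ℂ, (m : ℝ) + 1 / 2 < s.re → F s = L P τ s

/-- No zeros to the right of the centre. -/
def RH (m : ℤ) (F : ℂ → ℂ) : Prop := ∀ s : ℂ, (m : ℝ) < s.re → F s ≠ 0

/-- The partial product `R(n) = ∏_{p ≤ n} P_p(p^{-m})`, an element of `E`. -/
noncomputable def R (m : ℤ) (P : ℕ → E[X]) (n : ℕ) : E :=
  ∏ p ∈ (Finset.Icc 1 n).filter (fun p => p.Prime), (P p).eval ((p : E) ^ (-m))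

/-- `∑_{√n < p ≤ n} Tr(Frob_p²) p^{-2m} → ν log 2` for the component `τ`, the trace being the sum of the squares of
the inverse roots of `τ P_p`. -/
def SquareLaw (m : ℤ) (P : ℕ → E[X]) (τ : E →+* ℂ) (ν : ℝ) : Prop :=
  Tendsto (fun n : ℕ => ∑ p ∈ (Finset.Icc 1 n).filter (fun p => p.Prime ∧ n < p ^ 2),
    (((P p).map τ).roots.map fun ρ => (ρ⁻¹ * (p : ℂ) ^ (-m)) ^ 2).sum) atTop
    (𝓝 ((ν * Real.log 2 : ℝ) : ℂ))

/-- The integers `n` for which `S n` fails have a convergent sum `∑ 1/n`. -/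
def AlmostAll (S : ℕ → Prop) : Prop := Summable fun n : {n : ℕ // ¬ S n} => (1 : ℝ) / (n : ℕ)

/-- The approximation property: for some `N ≥ 1` the vectors `(N 2^{-ν_τ/2} / (c_τ τ(R(n))))_τ` approach the lattice
of the integers of `E`. -/
def Approximated (m : ℤ) (P : ℕ → E[X]) (ν : (E →+* ℂ) → ℝ) (c : (E →+* ℂ) → ℂ) : Prop :=
  ∃ N : ℕ, 1 ≤ N ∧ ∀ ε : ℝ, 0 < ε → AlmostAll fun n => ∃ a : 𝓞 E, ∀ τ : E →+* ℂ,
    ‖N * (((2 : ℝ) ^ (-ν τ / 2) : ℝ) / (c τ * τ (R m P n))) - τ (a : E)‖ < ε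

/-- The logarithms of the partial products are bounded in logarithmic mean. -/
def BoundedMean (m : ℤ) (P : ℕ → E[X]) (τ : E →+* ℂ) : Prop :=
  ∃ B : ℝ, ∀ᶠ x : ℕ in atTop,
    ∑ n ∈ Finset.Icc 1 x, |Real.log ‖τ (R m P n)‖| / n ≤ B * Real.log x

end definitions

section proofs

open Pool.Agent.TH270.MC

variable {E : Type} [Field E] [NumberField E] {m : ℤ} {P : ℕ → E[X]}

theorem pd (hP : IsLocalData m P) : ∃ D : ℕ, ∀ τ : E →+* ℂ, PD (fun p => (P p).map τ) D m := by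
  obtain ⟨D, hD⟩ := hP.deg
  refine ⟨D, fun τ => ⟨fun p hp => ?_, fun p hp => ?_, fun p hp ρ hρ => hP.pure p hp τ ρ hρ⟩⟩
  · rw [Polynomial.coeff_map, hP.const p hp, map_one]
  · rw [Polynomial.natDegree_map]
    exact hD p hp

theorem map_R (τ : E →+* ℂ) (n : ℕ) : τ (R m P n) =
    ∏ p ∈ (Finset.Icc 1 n).filter (fun p => p.Prime), ((P p).map τ).eval ((p : ℂ) ^ (-m)) := by
  unfold R
  rw [map_prod]
  refine Finset.prod_congr rfl fun p _ => ?_
  have h1 : (p : ℂ) ^ (-m) = τ ((p : E) ^ (-m)) := by rw [map_zpow₀, map_natCast]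
  rw [h1, Polynomial.eval_map_apply]

end proofs

/-- **Deligne's conjecture at the central integer and the partial Euler products.** -/
theorem result (E : Type) [Field E] [NumberField E] (m : ℤ) (P : ℕ → E[X]) (hP : IsLocalData m P)
    (F : (E →+* ℂ) → ℂ → ℂ) (hF : ∀ τ, Continues m P τ (F τ)) (ν : (E →+* ℂ) → ℝ)
    (hν : ∀ τ, SquareLaw m P τ (ν τ)) (c : (E →+* ℂ) → ℂ) (hc : ∀ τ, c τ ≠ 0) :
    ((∀ τ, RH m (F τ)) → ((∃ e : E, ∀ τ, F τ m = τ e * c τ) ↔ Approximated m P ν c)) ∧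
    ((∀ τ, RH m (F τ) ∧ F τ m ≠ 0) ∧ (∃ e : E, ∀ τ, F τ m = τ e * c τ) ↔
      (∀ τ, BoundedMean m P τ) ∧ Approximated m P ν c) := by
  obtain ⟨D, hD⟩ := pd hP
  have hmap : ∀ (τ : E →+* ℂ) (n : ℕ), τ (R m P n) = ∏ p ∈ (Finset.Icc 1 n).filter
      (fun p => p.Prime), ((P p).map τ).eval ((p : ℂ) ^ (-m)) := fun τ n => map_R τ n
  have hbdd : ∀ τ, (RH m (F τ) ∧ F τ m ≠ 0) ↔ BoundedMean m P τ := by
    intro τ
    obtain ⟨⟨η, C, κ, hη, h1⟩, h2⟩ := hF τ
    have h3 := (hD τ).bdd hη h1 h2 (hν τ)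
    unfold BoundedMean
    simp only [hmap τ]
    exact h3
  have key : (∀ τ, RH m (F τ)) →
      ((∃ e : E, ∀ τ, F τ m = τ e * c τ) ↔ Approximated m P ν c) := by
    intro hRH
    have h1 : ∀ τ : E →+* ℂ, ∀ ε : ℝ, 0 < ε → Pool.Agent.TH270.MC.AA fun n =>
        ‖(((2 : ℝ) ^ (-ν τ / 2) : ℝ) : ℂ) / τ (R m P n) - F τ m‖ < ε := by
      intro τ ε hε
      obtain ⟨⟨η, C, κ, hη, h1⟩, h2⟩ := hF τ
      have h3 := (hD τ).near hη h1 h2 (hν τ) (hRH τ) hε
      simp only [hmap τ]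
      exact h3
    have h2 := Pool.Agent.TH270.MC.lattice_iff (Z := fun τ => F τ m) (c := c)
      (T := fun τ n => (((2 : ℝ) ^ (-ν τ / 2) : ℝ) : ℂ) / τ (R m P n)) hc h1
    rw [h2]
    unfold Approximated
    have h3 : ∀ (τ : E →+* ℂ) (n : ℕ), (((2 : ℝ) ^ (-ν τ / 2) : ℝ) : ℂ) / τ (R m P n) / c τ =
        ((2 : ℝ) ^ (-ν τ / 2) : ℝ) / (c τ * τ (R m P n)) := by
      intro τ n
      rw [div_div, mul_comm]
    simp only [h3]
    rfl
  refine ⟨key, ?_⟩
  constructor
  · rintro ⟨h1, h2⟩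
    exact ⟨fun τ => (hbdd τ).1 (h1 τ), (key fun τ => (h1 τ).1).1 h2⟩
  · rintro ⟨h1, h2⟩
    have h3 : ∀ τ, RH m (F τ) ∧ F τ m ≠ 0 := fun τ => (hbdd τ).2 (h1 τ)
    exact ⟨h3, (key fun τ => (h3 τ).1).2 h2⟩

end Pool.Agent.Results.MP_100fe7_nt.CentralValues
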