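import Pool.Agent.TH590.JH.Pure

/-!
# Deligne's conjecture (coefficients `E`) and smooth affine cubic hypersurfaces
-/

set_option autoImplicit false

open CategoryTheory CategoryTheory.Limits AlgebraicGeometry Pool.Agent.TH90.Cub
  Pool.Agent.TH590.JH
open scoped TensorProduct

namespace Pool.Agent.Results.MP_100fe7_nt.CubicHypersurfaces

universe v u

attribute [local instance] Abelian.hasFiniteBiproducts

/-- `e ⊗ z` in `E ⊗ ℂ`. -/
noncomputable abbrev tm {E : Type} [Field E] [NumberField E] (e : E) (z : ℂ) : E ⊗[ℚ] ℂ :=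
  e ⊗ₜ[ℚ] z

/-- The data in Deligne's conjecture for a theory of motives over `ℚ` with coefficients in `E`. The
sign `ε` is an element of `ℤˣ = {1, -1}`. -/
structure Deligne (E : Type) [Field E] [NumberField E] {𝓐 : Type u} [Category.{v} 𝓐] [Abelian 𝓐]
    (T : Theory ℚ 𝓐) where
  /-- `M` (of weight `w`) has no classes of type `(w/2, w/2)` -/
  NoMiddle : 𝓐 → Prop
  /-- the integer `m` is critical for `M` -/
  Critical : 𝓐 → ℤ → Prop
  /-- the value `L(m, M)` -/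
  L : ℤ → 𝓐 → E ⊗[ℚ] ℂ
  /-- `n^ε = dim_E M^ε` -/
  d : ℤˣ → 𝓐 → ℕ
  /-- the period `c^ε(M)` -/
  c : ℤˣ → 𝓐 → E ⊗[ℚ] ℂ
  /-- direct sums of motives of the same weight -/
  additive : ∀ (w : ℤ) (n : ℕ) (S : Fin n → 𝓐) (M : 𝓐), (∀ a, T.IsPure w (S a)) →
    Nonempty (M ≅ ⨁ S) →
    (NoMiddle M ↔ ∀ a, NoMiddle (S a)) ∧
    (NoMiddle M → ∀ m, Critical M m ↔ ∀ a, Critical (S a) m) ∧
    (NoMiddle M → ∀ m, Critical M m → L m M = ∏ a, L m (S a)) ∧
    (NoMiddle M → ∀ ε, d ε M = ∑ a, d ε (S a) ∧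
      ∃ e : E, e ≠ 0 ∧ c ε M = tm e 1 * ∏ a, c ε (S a))
  /-- Tate twists -/
  twist : ∀ (w : ℤ) (M : 𝓐) (n : ℤ), T.IsPure w M → NoMiddle M →
    NoMiddle ((T.tw n).obj M) ∧
    (∀ m, Critical ((T.tw n).obj M) m ↔ Critical M (m + n)) ∧
    (∀ m, L m ((T.tw n).obj M) = L (m + n) M) ∧
    (∀ ε, d ε ((T.tw n).obj M) = d (ε * (-1) ^ n) M ∧
      ∃ e : E, e ≠ 0 ∧ c ε ((T.tw n).obj M) =
        tm e ((2 * Real.pi * Complex.I) ^ (n * d (ε * (-1) ^ n) M)) * c (ε * (-1) ^ n) M)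

/-- Deligne's conjecture for `M` and the critical integer `m`: `L(m, M)` is
`(2πi)^(m n^ε) c^ε(M)` times an element of `E`, where `ε` is the sign of `(-1)^m`. -/
def Deligne.Conj {E : Type} [Field E] [NumberField E] {𝓐 : Type u} [Category.{v} 𝓐] [Abelian 𝓐]
    {T : Theory ℚ 𝓐} (D : Deligne E T) (M : 𝓐) (m : ℤ) : Prop :=
  ∃ e : E, D.L m M =
    tm e 1 * (tm 1 ((2 * Real.pi * Complex.I) ^ (m * D.d ((-1) ^ m) M)) * D.c ((-1) ^ m) M)

variable {E : Type} [Field E] [NumberField E] {𝓐 : Type u} [Category.{v} 𝓐] [Abelian 𝓐]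

theorem tm_mul (a b : E) (x y : ℂ) : tm a x * tm b y = tm (a * b) (x * y) :=
  Algebra.TensorProduct.tmul_mul_tmul _ _ _ _

theorem tpi : (2 * Real.pi * Complex.I : ℂ) ≠ 0 := by
  simp [Real.pi_ne_zero]

theorem conj_sum {T : Theory ℚ 𝓐} (D : Deligne E T) (w : ℤ) (n : ℕ) (S : Fin n → 𝓐) (M : 𝓐)
    (hS : ∀ a, T.IsPure w (S a)) (hM : Nonempty (M ≅ ⨁ S)) (hN : D.NoMiddle M) (m : ℤ)
    (hc : D.Critical M m) (h : ∀ a, D.Conj (S a) m) : D.Conj M m := by
  obtain ⟨-, -, h3, h4⟩ := D.additive w n S M hS hM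
  obtain ⟨h5, e, he, h6⟩ := h4 hN ((-1) ^ m)
  choose e' he' using h
  refine ⟨(∏ a, e' a) * e⁻¹, ?_⟩
  rw [h3 hN m hc, h5, h6]
  have h7 : ∏ a, D.L m (S a) = (∏ a, tm (e' a) 1) *
      (tm 1 ((2 * Real.pi * Complex.I) ^ (m * ((∑ a, D.d ((-1) ^ m) (S a) : ℕ) : ℤ))) *
        ∏ a, D.c ((-1) ^ m) (S a)) := by
    have h8 : tm (1 : E) ((2 * Real.pi * Complex.I) ^
        (m * ((∑ a, D.d ((-1) ^ m) (S a) : ℕ) : ℤ))) =
        ∏ a, tm (1 : E) ((2 * Real.pi * Complex.I) ^ (m * (D.d ((-1) ^ m) (S a) : ℤ))) := by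
      rw [Nat.cast_sum, Finset.mul_sum]
      generalize hF : (fun a => m * (D.d ((-1) ^ m) (S a) : ℤ)) = F
      have hF' : ∀ a, m * (D.d ((-1) ^ m) (S a) : ℤ) = F a := fun a => congrFun hF a
      simp only [hF']
      clear hF hF'
      have h9 : ∀ s : Finset (Fin n), tm (1 : E) ((2 * Real.pi * Complex.I) ^ (∑ a ∈ s, F a)) =
          ∏ a ∈ s, tm (1 : E) ((2 * Real.pi * Complex.I) ^ (F a)) := by
        intro s
        induction s using Finset.induction_on with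
        | empty => simp [Algebra.TensorProduct.one_def]
        | insert a s ha ih =>
          rw [Finset.sum_insert ha, Finset.prod_insert ha, ← ih, tm_mul, mul_one,
            zpow_add₀ tpi]
      exact h9 Finset.univ
    rw [h8, ← Finset.prod_mul_distrib, ← Finset.prod_mul_distrib]
    exact Finset.prod_congr rfl fun a _ => he' a
  rw [h7]
  have h10 : (∏ a, tm (e' a) 1 : E ⊗[ℚ] ℂ) = tm (∏ a, e' a) 1 := by
    have h9 : ∀ s : Finset (Fin n), (∏ a ∈ s, tm (e' a) 1 : E ⊗[ℚ] ℂ) = tm (∏ a ∈ s, e' a) 1 := by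
      intro s
      induction s using Finset.induction_on with
      | empty => simp [Algebra.TensorProduct.one_def]
      | insert a s ha ih => rw [Finset.prod_insert ha, Finset.prod_insert ha, ih, tm_mul, mul_one]
    exact h9 Finset.univ
  rw [h10]
  have h11 : tm ((∏ a, e' a) * e⁻¹) (1 : ℂ) * tm e 1 = tm (∏ a, e' a) 1 := by
    rw [tm_mul, mul_one, mul_assoc, inv_mul_cancel₀ he, mul_one]
  rw [← h11]
  ring

theorem conj_tw {T : Theory ℚ 𝓐} (D : Deligne E T) (w : ℤ) (M : 𝓐) (n : ℤ) (hM : T.IsPure w M)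
    (hN : D.NoMiddle M) (m : ℤ) (h : D.Conj M (m + n)) : D.Conj ((T.tw n).obj M) m := by
  obtain ⟨-, -, h3, h4⟩ := D.twist w M n hM hN
  obtain ⟨h5, e, he, h6⟩ := h4 ((-1) ^ m)
  obtain ⟨e', he'⟩ := h
  refine ⟨e' * e⁻¹, ?_⟩
  have h7 : ((-1) ^ m * (-1) ^ n : ℤˣ) = (-1) ^ (m + n) := (zpow_add _ _ _).symm
  rw [h7] at h5 h6
  rw [h3 m, h5, h6, he']
  have h8 : tm (e' * e⁻¹) (1 : ℂ) *
      (tm 1 ((2 * Real.pi * Complex.I) ^ (m * (D.d ((-1) ^ (m + n)) M : ℤ))) *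
        (tm e ((2 * Real.pi * Complex.I) ^ (n * (D.d ((-1) ^ (m + n)) M : ℤ))) *
          D.c ((-1) ^ (m + n)) M)) =
      tm e' 1 * (tm 1 ((2 * Real.pi * Complex.I) ^ ((m + n) * (D.d ((-1) ^ (m + n)) M : ℤ))) *
          D.c ((-1) ^ (m + n)) M) := by
    rw [add_mul, zpow_add₀ tpi]
    simp only [← mul_assoc, tm_mul, one_mul, mul_one, inv_mul_cancel_right₀ he]
  exact h8.symm

/-- **Deligne's conjecture and smooth affine cubic hypersurfaces.** Deligne's conjecture holds for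
all pure motives `M` over `ℚ` with coefficients in `E` without classes of type `(w/2, w/2)` and all
critical integers `m` if and only if it holds for such `M` which are simple subquotients of some
`H_c^j(C)` (with coefficients in `E`, without Tate twist) and all critical integers `m`, where `C`
is a hypersurface `g_0 t_0 + ⋯ + g_r t_r = 1` in the affine space with the coordinates
`x_1, …, x_n, t_0, …, t_r` over `ℚ`, each `g_i` being of the form `x_a x_b - x_c`,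
`x_a + x_b - x_c` or `x_a - 1`. These hypersurfaces `C` are smooth. -/
theorem result (T : WeightTheory ℚ 𝓐) (D : Deligne E T.toTheory) :
    ((∀ (w : ℤ) (M : 𝓐), T.IsPure w M → D.NoMiddle M → ∀ m, D.Critical M m → D.Conj M m) ↔
      (∀ M : 𝓐, Simple M → D.NoMiddle M →
        (∃ (n r : ℕ) (g : Fin (r + 1) → MvPolynomial (Fin n) ℚ), (∀ i, IsGate {1} (g i)) ∧
          ∃ j : ℤ, SubQuot M (T.H j (Spec (CommRingCat.of (Cubic g))) (str ℚ (Cubic g)))) →
        ∀ m, D.Critical M m → D.Conj M m)) ∧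
    (∀ (n r : ℕ) (g : Fin (r + 1) → MvPolynomial (Fin n) ℚ), Smooth (str ℚ (Cubic g))) := by
  have hiso : ∀ (w : ℤ) (M N : 𝓐), T.IsPure w M → Nonempty (N ≅ M) →
      Nonempty (N ≅ ⨁ (fun _ : Fin 1 => M)) := by
    rintro w M N _ ⟨e⟩
    exact ⟨e.trans (biproductUniqueIso (fun _ : Fin 1 => M)).symm⟩
  refine ⟨⟨fun h M hM hN hc m hcrit => ?_, fun h w M hM hN m hcrit => ?_⟩,
    fun n r g => cubic_smooth g⟩
  · obtain ⟨n, r, g, hg, j, hq⟩ := hc
    obtain ⟨e⟩ := T.tw_zero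
    obtain ⟨w, hw⟩ := T.pure_of_cubic hM (S := {1})
      ⟨n, r, g, hg, j, 0, hq.of_iso (e.symm.app _)⟩
    exact h w M hw hN m hcrit
  · obtain ⟨n, S, hSa, hMS⟩ := hM
    have hpure : ∀ a, T.IsPure w (S a) := fun a => Theory.IsPure.of_simple (hSa a).1 (hSa a).2
    obtain ⟨h1, h2, -, -⟩ := D.additive w n S M hpure hMS
    refine conj_sum D w n S M hpure hMS hN m hcrit fun a => ?_
    have hNa := h1.mp hN a
    have hca := (h2 hN m).mp hcrit a
    obtain ⟨X, f, i, m₀, hf, hw, hq⟩ := (hSa a).2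
    have hsimp := (hSa a).1
    obtain ⟨n', r, g, hg, j, m₁, hq'⟩ :=
      T.fromCubic closure_one_rat (Set.mem_singleton 1) f hf.ft i m₀ (S a) hsimp hq
    -- the untwisted motive
    obtain ⟨e⟩ := T.twIso m₁ (-m₁) (by ring)
    obtain ⟨e'⟩ := T.twIso (-m₁) m₁ (by ring)
    have hs' := simple_obj (T.tw (-m₁)) (S a)
    have hq2 : SubQuot ((T.tw (-m₁)).obj (S a))
        (T.H j (Spec (CommRingCat.of (Cubic g))) (str ℚ (Cubic g))) :=
      (hq'.map (T.tw (-m₁))).of_iso (e.app _)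
    obtain ⟨t1, t2, -, -⟩ := D.twist w (S a) (-m₁) (hpure a) hNa
    have hpure' : T.IsPure (w + 2 * m₁) ((T.tw (-m₁)).obj (S a)) := by
      obtain ⟨e2⟩ := T.tw_add m₀ (-m₁)
      exact Theory.IsPure.of_simple hs' ⟨X, f, i, m₀ + -m₁, hf, by rw [← hw]; ring,
        (hq.map (T.tw (-m₁))).of_iso (e2.app _)⟩
    have hc' : D.Critical ((T.tw (-m₁)).obj (S a)) (m + m₁) := by
      rw [t2]
      convert hca using 1
      ring
    have h3 := h _ hs' t1 ⟨n', r, g, hg, j, hq2⟩ (m + m₁) hc'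
    have h4 := conj_tw D (w + 2 * m₁) _ m₁ hpure' t1 m h3
    -- transport along `S a ≅ (S a)(-m₁)(m₁)`
    have hpure2 : T.IsPure w ((T.tw m₁).obj ((T.tw (-m₁)).obj (S a))) := by
      have hs2 := simple_obj (T.tw m₁) ((T.tw (-m₁)).obj (S a))
      exact Theory.IsPure.of_simple hs2 ⟨X, f, i, m₀, hf, hw,
        hq.of_iso_left (e'.app (S a)).symm⟩
    exact conj_sum D w 1 (fun _ => (T.tw m₁).obj ((T.tw (-m₁)).obj (S a))) (S a)
      (fun _ => hpure2) (hiso w _ _ hpure2 ⟨(e'.app (S a)).symm⟩) hNa m hca (fun _ => h4)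

end Pool.Agent.Results.MP_100fe7_nt.CubicHypersurfaces
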