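import Pool.Agent.TH890.FN.Del

/-!
Deligne's conjecture at a critical integer `m` for the twists `M ⊗ Ind ψ` of a motive `M` over `ℚ`
by the linear characters `ψ` of number fields `K`: one failure forces many. If it fails for
`(K, ψ)`, then for every finite set `S` of totally positive elements `t` of `K^×` it fails for at
least `#S` of the `2 #S` pairs `(K, ψ χ_t)`, `(K(√t), ψ)`. Hence the conjecture for all twists of
`M` by Artin motives follows if, for each `(K, ψ)` of a restricted family, it holds for more than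
half of these pairs for a single `S`. All pairs which occur have constant sign at the real places,
so that all periods are explicit.
-/

open Pool.Agent.TH965.Stk Pool.Agent.TH944.Tw Pool.Agent.TH890.FN

namespace Pool.Agent.Results.MP_100fe7_nt.FailuresNotSparse

/-- Deligne's conjecture at `m` fails for the twist `M ⊗ Ind ψ`, where `ψ` is a linear character
of `K` taking the value `e` at all real places of `K`. The period is
`(2 π i)^(m h (r1 + 2 r2)) c^(e ε)(M)^(r1 + r2) c^(- e ε)(M)^r2 δ(Ind ψ)^h`, `ε = (-1)^m`. -/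
def Fails {E : Type} [Field E] (T : Twists E) (m : ℤ) (e : ℤˣ) (K : SubQ) (ψ : LinChar K) : Prop :=
  ∃ σ τ, T.B m (e * (-1) ^ m) (r1 K + r2 K) (r2 K) σ τ (ind QQ K ψ.fn) ≠ 1

/-- It fails for the twist of `ψ` by the quadratic character of `K(s)/K`. -/
def TwistFails {E : Type} [Field E] (T : Twists E) (m : ℤ) (e : ℤˣ) (K : SubQ) (ψ : LinChar K)
    (s : AlgebraicClosure ℚ) : Prop :=
  ∃ φ : LinChar K, IsTwist ψ s φ ∧ Fails T m e K φ

/-- It fails for the restriction of `ψ` to `K(s)`. -/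
def LiftFails {E : Type} [Field E] (T : Twists E) (m : ℤ) (e : ℤˣ) (K : SubQ) (ψ : LinChar K)
    (s : AlgebraicClosure ℚ) : Prop :=
  ∃ φ : LinChar (adj K s), IsLift ψ s φ ∧ Fails T m e (adj K s) φ

theorem either {E : Type} [Field E] (T : Twists E) (m : ℤ) (e : ℤˣ) (K : SubQ) (hK : IsNF K)
    (ψ : LinChar K) (hψ : ψ.HasSign (Units.map (Int.castRingHom ℂ : ℤ →* ℂ) e))
    (h : Fails T m e K ψ) (s : AlgebraicClosure ℚ) (hs : PosRoot K s) :
    TwistFails T m e K ψ s ∨ LiftFails T m e K ψ s := by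
  obtain ⟨σ, τ, hB⟩ := h
  rw [← T.X_ind m ((-1) ^ m) e σ τ hK ψ hψ] at hB
  have key : ∀ (L : SubQ) (φ : LinChar L),
      (Pool.Agent.TH944.Del.fam (T.X m ((-1) ^ m) σ τ) (T.X_add m ((-1) ^ m) σ τ)).D L.toIF φ.fn =
        T.X m ((-1) ^ m) σ τ (ind QQ L φ.fn) := by
    intro L φ
    show T.X m ((-1) ^ m) σ τ (Pool.Agent.TH944.Del.indQ L.toIF.fixingSubgroup φ.old.fn) = _
    rw [← Pool.Agent.TH944.Del.ind_bot_fn]
    rfl
  rcases st_dich (Pool.Agent.TH944.Del.fam (T.X m ((-1) ^ m) σ τ) (T.X_add m ((-1) ^ m) σ τ)) hK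
      hs.1 hs.2.1 ψ (by rw [key]; exact hB) with ⟨φ, h1, h2⟩ | ⟨φ, h1, h2⟩
  · rw [key] at h2
    refine Or.inl ⟨φ, h1, σ, τ, ?_⟩
    rw [← T.X_ind m ((-1) ^ m) e σ τ hK φ (twist_sign hs hψ h1)]
    exact h2
  · rw [key] at h2
    refine Or.inr ⟨φ, h1, σ, τ, ?_⟩
    rw [← T.X_ind m ((-1) ^ m) e σ τ (adj_nf hK s) φ (lift_sign hψ h1)]
    exact h2

open Classical in
/-- Deligne's conjecture at the critical integer `m` for the twists `M ⊗ ρ` of a motive `M` over
`ℚ` with coefficients in `E` by all Artin motives `ρ` over `ℚ` is equivalent to each of the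
following statements, where `(K, ψ)` runs over the linear characters `ψ` of number fields `K` with
at least `N` complex places, such that `ψ` takes the value `e` at all real places of `K`, and `K` is
totally complex or `ψ` has 2-power order:
* for each `(K, ψ)` there is a finite set `S` of square roots of totally positive elements `t` of
  `K` such that among the `2 #S` pairs `(K, ψ χ_t)`, `(K(√t), ψ)` there are fewer than `#S` for
  which the conjecture fails;
* for each `(K, ψ)` there is `X ≥ 1` such that among the `2 X` pairs `(K, ψ χ_t)`, `(K(√t), ψ)`,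
  `t = 1, ..., X`, there are fewer than `X` for which the conjecture fails. -/
theorem result {E : Type} [Field E] (T : Twists E) (m : ℤ) (N : ℕ) (e : ℤˣ)
    (r : ℕ → AlgebraicClosure ℚ) (hr : ∀ t, r t ^ 2 = t) :
    ((∀ σ τ, ∀ f ∈ Virt QQ, T.B m ((-1) ^ m) (dim T.cc 1 f) (dim T.cc (-1) f) σ τ f = 1) ↔
      ∀ K, IsNF K → N ≤ r2 K → ∀ ψ : LinChar K,
        ψ.HasSign (Units.map (Int.castRingHom ℂ : ℤ →* ℂ) e) →
        (IsTC K ∨ ∃ a : ℕ, ∀ g, ψ.hom g ^ (2 ^ a) = 1) →
        ∃ S : Finset (AlgebraicClosure ℚ), (∀ s ∈ S, PosRoot K s) ∧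
          (S.filter fun s => TwistFails T m e K ψ s).card +
            (S.filter fun s => LiftFails T m e K ψ s).card < S.card) ∧
    ((∀ σ τ, ∀ f ∈ Virt QQ, T.B m ((-1) ^ m) (dim T.cc 1 f) (dim T.cc (-1) f) σ τ f = 1) ↔
      ∀ K, IsNF K → N ≤ r2 K → ∀ ψ : LinChar K,
        ψ.HasSign (Units.map (Int.castRingHom ℂ : ℤ →* ℂ) e) →
        (IsTC K ∨ ∃ a : ℕ, ∀ g, ψ.hom g ^ (2 ^ a) = 1) →
        ∃ X : ℕ, ((Finset.Icc 1 X).filter fun t => TwistFails T m e K ψ (r t)).card +
            ((Finset.Icc 1 X).filter fun t => LiftFails T m e K ψ (r t)).card < X) := by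
  have key : ∀ {ι : Type} (S : Finset ι) (P Q : ι → Prop), (∀ i ∈ S, P i ∨ Q i) →
      S.card ≤ (S.filter P).card + (S.filter Q).card := by
    intro ι S P Q h
    refine le_trans (Finset.card_le_card ?_) (Finset.card_union_le _ _)
    intro i hi
    rw [Finset.mem_union, Finset.mem_filter, Finset.mem_filter]
    rcases h i hi with h1 | h1
    · exact Or.inl ⟨hi, h1⟩
    · exact Or.inr ⟨hi, h1⟩
  have good : (∀ σ τ, ∀ f ∈ Virt QQ, T.B m ((-1) ^ m) (dim T.cc 1 f) (dim T.cc (-1) f) σ τ f = 1) →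
      ∀ K, IsNF K → ∀ ψ : LinChar K,
      ψ.HasSign (Units.map (Int.castRingHom ℂ : ℤ →* ℂ) e) → ¬ Fails T m e K ψ := by
    rintro H K hK ψ hψ ⟨σ, τ, hσ⟩
    apply hσ
    rw [← T.X_ind m ((-1) ^ m) e σ τ hK ψ hψ]
    refine H σ τ _ ?_
    rw [← virt_bot]
    exact Pool.Agent.TH944.Del.ind_mem hK ψ.old
  have back : (∀ K, IsNF K → N ≤ r2 K → ∀ ψ : LinChar K,
      ψ.HasSign (Units.map (Int.castRingHom ℂ : ℤ →* ℂ) e) →
      (IsTC K ∨ ∃ a : ℕ, ∀ g, ψ.hom g ^ (2 ^ a) = 1) → ¬ Fails T m e K ψ) →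
      (∀ σ τ, ∀ f ∈ Virt QQ, T.B m ((-1) ^ m) (dim T.cc 1 f) (dim T.cc (-1) f) σ τ f = 1) := by
    intro H
    refine (main1 T m ((-1) ^ m) e N).2 fun σ τ K hK hN ψ h1 h2 => ?_
    by_contra hne
    exact H K hK hN ψ h1 h2 ⟨σ, τ, hne⟩
  refine ⟨⟨fun H K hK hN ψ h1 h2 => ?_, fun H => back fun K hK hN ψ h1 h2 hF => ?_⟩,
    ⟨fun H K hK hN ψ h1 h2 => ?_, fun H => back fun K hK hN ψ h1 h2 hF => ?_⟩⟩
  · have hp : PosRoot K 1 := ⟨one_ne_zero, by rw [one_pow]; exact one_mem _, fun c _ _ => map_one _⟩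
    refine ⟨{1}, ?_, ?_⟩
    · intro s hs
      rw [Finset.mem_singleton] at hs
      subst hs
      exact hp
    · rw [Finset.filter_false_of_mem, Finset.filter_false_of_mem]
      · simp
      · rintro s - ⟨φ, h3, h⟩
        exact good H _ (adj_nf hK s) φ (lift_sign h1 h3) h
      · rintro s hs ⟨φ, h3, h⟩
        rw [Finset.mem_singleton] at hs
        subst hs
        exact good H K hK φ (twist_sign hp h1 h3) h
  · obtain ⟨S, hS, hlt⟩ := H K hK hN ψ h1 h2
    exact absurd (key S (fun s => TwistFails T m e K ψ s) (fun s => LiftFails T m e K ψ s)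
      fun s hs => either T m e K hK ψ h1 hF s (hS s hs)) (not_le.2 hlt)
  · refine ⟨1, ?_⟩
    rw [Finset.filter_false_of_mem, Finset.filter_false_of_mem]
    · simp
    · rintro s - ⟨φ, h3, h⟩
      exact good H _ (adj_nf hK _) φ (lift_sign h1 h3) h
    · rintro t ht ⟨φ, h3, h⟩
      exact good H K hK φ (twist_sign (natRoot (Finset.mem_Icc.1 ht).1 (hr t)) h1 h3) h
  · obtain ⟨X, hlt⟩ := H K hK hN ψ h1 h2
    have h3 := key (Finset.Icc 1 X) (fun t => TwistFails T m e K ψ (r t))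
      (fun t => LiftFails T m e K ψ (r t)) fun t ht => either T m e K hK ψ h1 hF (r t)
        (natRoot (Finset.mem_Icc.1 ht).1 (hr t))
    rw [Nat.card_Icc, Nat.add_sub_cancel] at h3
    exact absurd h3 (not_le.2 hlt)

end Pool.Agent.Results.MP_100fe7_nt.FailuresNotSparse
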